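import Pool.Agent.H14R2.RC.Defs
import Pool.Agent.H14R2.RC.S.TRANS
import Pool.Agent.H14R2.RC.S.HSL

/-!
Task HIGHE: the character bound from the decay of products of random projections.
-/

namespace RC14
open scoped InnerProductSpace
open Finset

namespace HIGHE

section Group

variable {n : ℕ}

theorem c3_val (s : Tup 3 n) : ((c3 s : Alt n) : Equiv.Perm (Fin n)) =
    Equiv.swap (s 0) (s 1) * Equiv.swap (s 1) (s 2) := rfl

theorem tup_ne (s : Tup 3 n) : s 0 ≠ s 1 ∧ s 1 ≠ s 2 ∧ s 0 ≠ s 2 :=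
  ⟨fun h => by simpa using s.injective h, fun h => by simpa using s.injective h,
    fun h => by simpa using s.injective h⟩

theorem c3_off (s : Tup 3 n) (x : Fin n) (hx : ∀ i, s i ≠ x) :
    ((c3 s : Alt n) : Equiv.Perm (Fin n)) x = x := by
  rw [c3_val]
  simp only [Equiv.Perm.coe_mul, Function.comp_apply]
  rw [Equiv.swap_apply_of_ne_of_ne (hx 1).symm (hx 2).symm,
    Equiv.swap_apply_of_ne_of_ne (hx 0).symm (hx 1).symm]

/-- elements of `A_n` with disjoint supports commute -/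
theorem comm_of_disj (g h : Alt n) (H : ∀ x, (g : Equiv.Perm (Fin n)) x = x ∨
    (h : Equiv.Perm (Fin n)) x = x) : g * h = h * g := by
  apply Subtype.ext
  change (g : Equiv.Perm (Fin n)) * (h : Equiv.Perm (Fin n)) =
    (h : Equiv.Perm (Fin n)) * (g : Equiv.Perm (Fin n))
  exact Equiv.Perm.Disjoint.commute H

/-- conjugation of a 3-cycle -/
theorem c3_conj (g : Alt n) (s : Tup 3 n) :
    c3 (mv (g : Equiv.Perm (Fin n)) s) = g * c3 s * g⁻¹ := by
  apply Subtype.ext
  simp only [Subgroup.coe_mul, InvMemClass.coe_inv, c3_val, mv_apply, Equiv.swap_apply_apply]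
  group

theorem c33_conj (g : Alt n) (s : Tup 6 n) :
    c33 (mv (g : Equiv.Perm (Fin n)) s) = g * c33 s * g⁻¹ := by
  unfold c33
  have h1 : ((Fin.castLEEmb (by omega : 3 ≤ 6)).trans (mv (g : Equiv.Perm (Fin n)) s)) =
      mv (g : Equiv.Perm (Fin n)) ((Fin.castLEEmb (by omega : 3 ≤ 6)).trans s) := by
    ext i; simp [mv]
  have h2 : ((Fin.natAddEmb 3).trans (mv (g : Equiv.Perm (Fin n)) s) : Tup 3 n) =
      mv (g : Equiv.Perm (Fin n)) ((Fin.natAddEmb 3).trans s) := by
    ext i; simp [mv]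
  rw [h1, h2, c3_conj, c3_conj]
  group

/-- the reversed tuple -/
def rev3 (s : Tup 3 n) : Tup 3 n := (Fin.revPerm.toEmbedding).trans s

theorem c3_rev (s : Tup 3 n) : c3 (rev3 s) = (c3 s)⁻¹ := by
  apply Subtype.ext
  simp only [InvMemClass.coe_inv, c3_val, mul_inv_rev, Equiv.swap_inv]
  have h0 : rev3 s 0 = s 2 := rfl
  have h1 : rev3 s 1 = s 1 := rfl
  have h2 : rev3 s 2 = s 0 := rfl
  rw [h0, h1, h2, Equiv.swap_comm (s 2), Equiv.swap_comm (s 1) (s 0)]

theorem mv_rev (g : Equiv.Perm (Fin n)) (s : Tup 3 n) : rev3 (mv g s) = mv g (rev3 s) := by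
  ext i; simp [mv, rev3]

theorem inj6 (a b : Tup 3 n) (h : ∀ i j, a i ≠ b j) :
    Function.Injective (Fin.append a b : Fin (3 + 3) → Fin n) :=
  Fin.append_injective_iff.2 ⟨a.injective, b.injective, h⟩

/-- two disjoint triples -/
def join (a b : Tup 3 n) (h : ∀ i j, a i ≠ b j) : Tup 6 n := ⟨Fin.append a b, inj6 a b h⟩

theorem c33_join (a b : Tup 3 n) (h : ∀ i j, a i ≠ b j) : c33 (join a b h) = c3 a * c3 b := by
  unfold c33
  have h1 : (Fin.castLEEmb (by omega : 3 ≤ 6)).trans (join a b h) = a := by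
    refine Function.Embedding.ext fun i => ?_
    simp only [join, Function.Embedding.trans_apply, Function.Embedding.coeFn_mk]
    exact Fin.append_left a b i
  have h2 : ((Fin.natAddEmb 3).trans (join a b h) : Tup 3 n) = b := by
    refine Function.Embedding.ext fun i => ?_
    simp only [join, Function.Embedding.trans_apply, Function.Embedding.coeFn_mk]
    exact Fin.append_right a b i
  rw [h1, h2]

end Group

/-! ### trace identities -/

section Trace

variable {G : Type*} [Group G]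
variable {V : Type*} [NormedAddCommGroup V] [InnerProductSpace ℂ V]

theorem op_comm (ρ : G →* (V ≃ₗᵢ[ℂ] V)) {g h : G} (H : g * h = h * g) :
    op ρ g * op ρ h = op ρ h * op ρ g := by
  rw [← op_mul, ← op_mul, H]

theorem tr_conj (ρ : G →* (V ≃ₗᵢ[ℂ] V)) (Q : Module.End ℂ V) (g x : G)
    (hQ : Q * op ρ x = op ρ x * Q) :
    LinearMap.trace ℂ V (Q * op ρ (x * g * x⁻¹)) = LinearMap.trace ℂ V (Q * op ρ g) := by
  have h1 : op ρ x⁻¹ * op ρ x = 1 := by rw [← op_mul, inv_mul_cancel, op_one]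
  have h2 : op ρ x * op ρ x⁻¹ = 1 := by rw [← op_mul, mul_inv_cancel, op_one]
  calc LinearMap.trace ℂ V (Q * op ρ (x * g * x⁻¹))
      = LinearMap.trace ℂ V ((Q * op ρ x * op ρ g) * op ρ x⁻¹) := by
        rw [op_mul, op_mul]
        simp only [mul_assoc]
    _ = LinearMap.trace ℂ V (op ρ x⁻¹ * (Q * op ρ x * op ρ g)) := LinearMap.trace_mul_comm ℂ _ _
    _ = LinearMap.trace ℂ V (Q * op ρ g) := by
        rw [hQ]
        simp only [← mul_assoc]
        rw [h1, one_mul]

theorem tr_P3 (ρ : G →* (V ≃ₗᵢ[ℂ] V)) (Q : Module.End ℂ V) (g c : G)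
    (hQ : Q * op ρ c = op ρ c * Q) (hc : c * (g * c⁻¹ * g⁻¹) = (g * c⁻¹ * g⁻¹) * c) :
    LinearMap.trace ℂ V (Q * P3 ρ (c * (g * c⁻¹ * g⁻¹)) * op ρ g) =
      LinearMap.trace ℂ V (Q * op ρ g) := by
  set u := c * (g * c⁻¹ * g⁻¹) with hu
  have h1 : LinearMap.trace ℂ V (Q * op ρ (u * g)) = LinearMap.trace ℂ V (Q * op ρ g) := by
    have : u * g = c * g * c⁻¹ := by rw [hu]; group
    rw [this]
    exact tr_conj ρ Q g c hQ
  have h2 : LinearMap.trace ℂ V (Q * op ρ (u ^ 2 * g)) = LinearMap.trace ℂ V (Q * op ρ g) := by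
    have e1 : u ^ 2 * g = c ^ 2 * g * (c ^ 2)⁻¹ := by
      have e2 : u ^ 2 = c ^ 2 * (g * c⁻¹ * g⁻¹) ^ 2 := by
        rw [hu]
        exact (show Commute c (g * c⁻¹ * g⁻¹) from hc).mul_pow 2
      rw [e2, conj_pow]
      group
    have hQ2 : Q * op ρ (c ^ 2) = op ρ (c ^ 2) * Q := by
      rw [pow_two, op_mul, ← mul_assoc, hQ, mul_assoc, hQ, mul_assoc]
    rw [e1]
    exact tr_conj ρ Q g (c ^ 2) hQ2
  have h3 : Q * P3 ρ u * op ρ g =
      (1 / 3 : ℂ) • (Q * op ρ g + Q * op ρ (u * g) + Q * op ρ (u ^ 2 * g)) := by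
    unfold P3
    rw [mul_smul_comm, smul_mul_assoc, op_mul ρ u g, op_mul ρ (u ^ 2) g]
    congr 1
    simp only [mul_add, add_mul, mul_one, mul_assoc]
  rw [h3, map_smul, map_add, map_add, h1, h2, smul_eq_mul]
  ring

/-- the product over the list, one factor at a time -/
theorem tr_prod (ρ : G →* (V ≃ₗᵢ[ℂ] V)) (g : G) : ∀ (m : ℕ) (c : Fin m → G),
    (∀ i j, c i * (g * (c j)⁻¹ * g⁻¹) = (g * (c j)⁻¹ * g⁻¹) * c i) →
    (∀ i j, i ≠ j → c i * c j = c j * c i) →
    LinearMap.trace ℂ V ((List.ofFn fun i => P3 ρ (c i * (g * (c i)⁻¹ * g⁻¹))).prod * op ρ g) =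
      LinearMap.trace ℂ V (op ρ g) := by
  intro m
  induction m with
  | zero => intro c _ _; simp
  | succ m ih =>
    intro c h1 h2
    rw [List.ofFn_succ', List.concat_eq_append, List.prod_append, List.prod_singleton]
    rw [tr_P3 ρ _ g (c (Fin.last m)) ?_ (h1 _ _)]
    · exact ih (fun i => c i.castSucc) (fun i j => h1 _ _)
        fun i j hij => h2 _ _ fun h => hij (Fin.castSucc_injective m h)
    · -- the product commutes with the last cycle
      have h3 : ∀ i : Fin m, Commute (P3 ρ (c i.castSucc *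
          (g * (c i.castSucc)⁻¹ * g⁻¹))) (op ρ (c (Fin.last m))) := by
        intro i
        have h4 : (c i.castSucc * (g * (c i.castSucc)⁻¹ * g⁻¹)) * c (Fin.last m) =
            c (Fin.last m) * (c i.castSucc * (g * (c i.castSucc)⁻¹ * g⁻¹)) := by
          have h5 := h2 i.castSucc (Fin.last m) (Fin.castSucc_lt_last i).ne
          have h6 := h1 (Fin.last m) i.castSucc
          rw [mul_assoc, ← h6, ← mul_assoc, h5, mul_assoc]
        have h5 : Commute (op ρ (c i.castSucc * (g * (c i.castSucc)⁻¹ * g⁻¹)))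
            (op ρ (c (Fin.last m))) := op_comm ρ h4
        have h6 : Commute (op ρ ((c i.castSucc * (g * (c i.castSucc)⁻¹ * g⁻¹)) ^ 2))
            (op ρ (c (Fin.last m))) := by
          rw [pow_two, op_mul]
          exact h5.mul_left h5
        unfold P3
        exact (((Commute.one_left _).add_left h5).add_left h6).smul_left _
      have h7 : Commute (List.ofFn fun i : Fin m => P3 ρ (c i.castSucc *
          (g * (c i.castSucc)⁻¹ * g⁻¹))).prod (op ρ (c (Fin.last m))) := by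
        refine (Commute.list_prod_right _ (op ρ (c (Fin.last m))) fun x hx => ?_).symm
        rw [List.mem_ofFn] at hx
        obtain ⟨i, rfl⟩ := hx
        exact (h3 i).symm
      exact h7

end Trace

/-! ### disjoint configurations -/

section Conf

variable {n : ℕ}

/-- many points which are moved away from the set of these points -/
theorem exists_B (g : Equiv.Perm (Fin n)) (hg : 2 * nfix g ≤ n) (k : ℕ) (hk : 6 * k ≤ n) :
    ∃ b : Fin k ↪ Fin n, ∀ i j, g (b i) ≠ b j := by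
  classical
  let Good : Finset (Fin n) → Prop := fun B => ∀ x ∈ B, g x ∉ B
  obtain ⟨B, hB, hmax⟩ := Finset.exists_max_image (univ.filter Good) card
    ⟨∅, by rw [mem_filter]; exact ⟨mem_univ _, by simp [Good]⟩⟩
  rw [mem_filter] at hB
  obtain ⟨-, hB⟩ := hB
  have hcov : (univ : Finset (Fin n)) ⊆
      (univ.filter fun a => g a = a) ∪ (B ∪ B.image g ∪ B.image g.symm) := by
    intro x _
    by_contra hx
    simp only [mem_union, mem_filter, mem_univ, true_and, mem_image, not_or, not_exists,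
      not_and] at hx
    obtain ⟨h1, ⟨h2, h3⟩, h4⟩ := hx
    have hgood : Good (insert x B) := by
      intro y hy hgy
      rw [mem_insert] at hy hgy
      rcases hy with rfl | hy
      · rcases hgy with h | h
        · exact h1 h
        · exact h4 _ h (g.symm_apply_apply y)
      · rcases hgy with h | h
        · exact h3 y hy h
        · exact hB y hy h
    have h5 := hmax _ (mem_filter.2 ⟨mem_univ _, hgood⟩)
    rw [card_insert_of_notMem h2] at h5
    omega
  have hcard := card_le_card hcov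
  have h1 : (B.image g).card ≤ B.card := card_image_le
  have h2 : (B.image g.symm).card ≤ B.card := card_image_le
  have h3 := card_union_le (univ.filter fun a => g a = a) (B ∪ B.image g ∪ B.image g.symm)
  have h4 := card_union_le (B ∪ B.image g) (B.image g.symm)
  have h5 := card_union_le B (B.image g)
  have h6 : nfix g = (univ.filter fun a => g a = a).card := rfl
  rw [card_univ, Fintype.card_fin] at hcard
  have hk' : k ≤ B.card := by omega
  obtain ⟨B', hB', hB'c⟩ := exists_subset_card_eq hk'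
  refine ⟨(B'.orderEmbOfFin hB'c).toEmbedding, fun i j h => ?_⟩
  have hi := orderEmbOfFin_mem B' hB'c i
  have hj := orderEmbOfFin_mem B' hB'c j
  refine hB _ (hB' hi) ?_
  have : g ((B'.orderEmbOfFin hB'c) i) = (B'.orderEmbOfFin hB'c) j := h
  rw [this]
  exact hB' hj

/-- jointly injective families of tuples -/
def JI {m : ℕ} (s : Fin m → Tup 6 n) : Prop :=
  Function.Injective fun p : Fin m × Fin 6 => s p.1 p.2

theorem JI_trans {m : ℕ} (hm : m * 6 + 2 ≤ n) (s s' : Fin m → Tup 6 n) (h : JI s)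
    (h' : JI s') : ∃ g : Alt n, ∀ i, mv (g : Equiv.Perm (Fin n)) (s i) = s' i := by
  let e := (finProdFinEquiv : Fin m × Fin 6 ≃ Fin (m * 6))
  obtain ⟨g, hg⟩ := TRANS hm
    (⟨fun k => s (e.symm k).1 (e.symm k).2, fun a b hab => e.symm.injective (h hab)⟩ :
      Tup (m * 6) n)
    (⟨fun k => s' (e.symm k).1 (e.symm k).2, fun a b hab => e.symm.injective (h' hab)⟩ :
      Tup (m * 6) n)
  refine ⟨g, fun i => Function.Embedding.ext fun j => ?_⟩
  have h1 := DFunLike.congr_fun hg (e (i, j))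
  change (g : Equiv.Perm (Fin n)) (s (e.symm (e (i, j))).1 (e.symm (e (i, j))).2) =
    s' (e.symm (e (i, j))).1 (e.symm (e (i, j))).2 at h1
  rw [e.symm_apply_apply] at h1
  exact h1

theorem JI_card (m : ℕ) [DecidablePred (JI (n := n) (m := m))] :
    n.descFactorial (m * 6) ≤ (univ.filter (JI (n := n) (m := m))).card := by
  classical
  have h1 : Fintype.card (Fin m × Fin 6 ↪ Fin n) = n.descFactorial (m * 6) := by
    rw [Fintype.card_embedding_eq, Fintype.card_fin, Fintype.card_prod, Fintype.card_fin,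
      Fintype.card_fin]
  rw [← h1, ← card_univ]
  refine card_le_card_of_injOn (fun a i => ⟨fun j => a (i, j), fun j j' hj => by
    simpa using a.injective hj⟩) ?_ ?_
  · intro a _
    simp only [coe_filter, mem_univ, true_and, Set.mem_ofPred_eq]
    intro p q hpq
    exact a.injective hpq
  · intro a _ b _ hab
    refine Function.Embedding.ext fun p => ?_
    have h2 := congrFun hab p.1
    exact DFunLike.congr_fun h2 p.2

theorem desc_bound (m : ℕ) (hm : 100 * m ^ 2 ≤ n) (hn : 100 ≤ n) :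
    ((n : ℝ) ^ (m * 6)) ≤ 2 * (n.descFactorial (m * 6) : ℝ) := by
  have h1 : ((n + 1 - m * 6 : ℕ) : ℝ) ^ (m * 6) ≤ (n.descFactorial (m * 6) : ℝ) := by
    exact_mod_cast Nat.pow_sub_le_descFactorial n (m * 6)
  have hmn : m * 6 ≤ n := by nlinarith
  have hn0 : (0 : ℝ) < n := by
    have : (100 : ℝ) ≤ n := by exact_mod_cast hn
    linarith
  have h2 : (n : ℝ) * (1 + -((m * 6 : ℕ) : ℝ) / n) ≤ ((n + 1 - m * 6 : ℕ) : ℝ) := by
    rw [Nat.cast_sub (by omega)]
    push_cast
    field_simp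
    linarith
  have h3 : (0 : ℝ) ≤ 1 + -((m * 6 : ℕ) : ℝ) / n := by
    have : ((m * 6 : ℕ) : ℝ) ≤ n := by exact_mod_cast hmn
    rw [neg_div]
    have : ((m * 6 : ℕ) : ℝ) / n ≤ 1 := by
      rw [div_le_one hn0]; exact this
    linarith
  have h4 : (1 / 2 : ℝ) ≤ (1 + -((m * 6 : ℕ) : ℝ) / n) ^ (m * 6) := by
    have h5 := one_add_mul_le_pow (a := -((m * 6 : ℕ) : ℝ) / n) (by linarith) (m * 6)
    refine le_trans ?_ h5
    have h6 : 100 * (m : ℝ) ^ 2 ≤ n := by exact_mod_cast hm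
    have h7 : ((m * 6 : ℕ) : ℝ) * (-((m * 6 : ℕ) : ℝ) / n) = -(36 * (m : ℝ) ^ 2 / n) := by
      push_cast
      ring
    rw [h7]
    have h8 : 36 * (m : ℝ) ^ 2 / n ≤ 1 / 2 := by
      rw [div_le_iff₀ hn0]
      linarith
    linarith
  have h5 : (n : ℝ) ^ (m * 6) * (1 / 2) ≤ (n.descFactorial (m * 6) : ℝ) := by
    calc (n : ℝ) ^ (m * 6) * (1 / 2) ≤ (n : ℝ) ^ (m * 6) *
          (1 + -((m * 6 : ℕ) : ℝ) / n) ^ (m * 6) :=
          mul_le_mul_of_nonneg_left h4 (by positivity)
      _ = ((n : ℝ) * (1 + -((m * 6 : ℕ) : ℝ) / n)) ^ (m * 6) := by rw [mul_pow]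
      _ ≤ ((n + 1 - m * 6 : ℕ) : ℝ) ^ (m * 6) :=
          pow_le_pow_left₀ (by positivity) h2 _
      _ ≤ _ := h1
  linarith

end Conf

section Main

variable {n : ℕ} {V : Type*} [NormedAddCommGroup V] [InnerProductSpace ℂ V]
  [FiniteDimensional ℂ V]

theorem P3_conj (ρ : Alt n →* (V ≃ₗᵢ[ℂ] V)) (g u : Alt n) :
    P3 ρ (g * u * g⁻¹) = op ρ g * P3 ρ u * op ρ g⁻¹ := by
  have h2 : op ρ g * op ρ g⁻¹ = 1 := by rw [← op_mul, mul_inv_cancel, op_one]
  unfold P3
  rw [conj_pow, mul_smul_comm, smul_mul_assoc]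
  congr 1
  simp only [op_mul, mul_add, add_mul, mul_one, h2]

theorem prod_conj (ρ : Alt n →* (V ≃ₗᵢ[ℂ] V)) (g : Alt n) :
    ∀ (m : ℕ) (u : Fin m → Alt n), (List.ofFn fun i => P3 ρ (g * u i * g⁻¹)).prod =
      op ρ g * (List.ofFn fun i => P3 ρ (u i)).prod * op ρ g⁻¹ := by
  have h1 : op ρ g⁻¹ * op ρ g = 1 := by rw [← op_mul, inv_mul_cancel, op_one]
  have h2 : op ρ g * op ρ g⁻¹ = 1 := by rw [← op_mul, mul_inv_cancel, op_one]
  intro m
  induction m with
  | zero => intro u; simp [h2]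
  | succ m ih =>
    intro u
    rw [List.ofFn_succ, List.prod_cons, List.ofFn_succ, List.prod_cons, ih, P3_conj]
    calc op ρ g * P3 ρ (u 0) * op ρ g⁻¹ *
        (op ρ g * (List.ofFn fun i : Fin m => P3 ρ (u i.succ)).prod * op ρ g⁻¹)
        = op ρ g * P3 ρ (u 0) * (op ρ g⁻¹ * op ρ g) *
          (List.ofFn fun i : Fin m => P3 ρ (u i.succ)).prod * op ρ g⁻¹ := by
          simp only [mul_assoc]
      _ = _ := by rw [h1, mul_one]; simp only [mul_assoc]

theorem hs_JI (ρ : Alt n →* (V ≃ₗᵢ[ℂ] V)) {m : ℕ} (hm : m * 6 + 2 ≤ n)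
    (s s' : Fin m → Tup 6 n) (h : JI s) (h' : JI s') :
    hs ((List.ofFn fun i => P3 ρ (c33 (s' i))).prod) =
      hs ((List.ofFn fun i => P3 ρ (c33 (s i))).prod) := by
  obtain ⟨g, hg⟩ := JI_trans hm s s' h h'
  have h1 : (List.ofFn fun i => P3 ρ (c33 (s' i))).prod =
      op ρ g * (List.ofFn fun i => P3 ρ (c33 (s i))).prod * op ρ g⁻¹ := by
    rw [← prod_conj]
    congr 2
    funext i
    rw [← hg i, c33_conj]
  rw [h1, (hs_op_mul ρ g⁻¹ _).2, (hs_op_mul ρ g _).1]

end Main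

end HIGHE

variable {V : Type*} [NormedAddCommGroup V] [InnerProductSpace ℂ V] [FiniteDimensional ℂ V]

/-- HIGH e -/
theorem HIGHE (n : ℕ) (ρ : Alt n →* (V ≃ₗᵢ[ℂ] V)) (g : Alt n)
    (hg : 2 * nfix (g : Equiv.Perm (Fin n)) ≤ n) (m : ℕ) (hm : 100 * m ^ 2 ≤ n) (hn : 100 ≤ n)
    (A : ℝ) (hA : ∑ s : Fin m → Tup 6 n, hs ((List.ofFn fun i => P3 ρ (c33 (s i))).prod) ≤
      A * (Fintype.card (Tup 6 n) : ℝ) ^ m) :
    ‖chr ρ g‖ ^ 2 ≤ 2 * A * Module.finrank ℂ V := by
  classical
  have hm18 : 6 * (m * 3) ≤ n := by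
    rcases Nat.eq_zero_or_pos m with h | h
    · subst h; omega
    · nlinarith
  have hm2 : m * 6 + 2 ≤ n := by
    rcases Nat.eq_zero_or_pos m with h | h
    · subst h; omega
    · nlinarith
  obtain ⟨b, hb⟩ := HIGHE.exists_B (g : Equiv.Perm (Fin n)) hg (m * 3) hm18
  let e := (finProdFinEquiv : Fin m × Fin 3 ≃ Fin (m * 3))
  -- the triples
  let β : Fin m → Tup 3 n := fun i => ⟨fun l => b (e (i, l)), fun l l' h => by
    have := e.injective (b.injective h)
    simpa using this⟩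
  have hβ : ∀ i l, β i l = b (e (i, l)) := fun i l => rfl
  have hβd : ∀ i i' l l', i ≠ i' → β i l ≠ β i' l' := by
    intro i i' l l' hii h
    have := e.injective (b.injective h)
    exact hii (congrArg Prod.fst this)
  have hβg : ∀ i i' l l', β i l ≠ (g : Equiv.Perm (Fin n)) (β i' l') :=
    fun i i' l l' h => hb _ _ h.symm
  let γ : Fin m → Tup 3 n := fun i => HIGHE.rev3 (mv (g : Equiv.Perm (Fin n)) (β i))
  have hγ : ∀ i l, γ i l = (g : Equiv.Perm (Fin n)) (β i (Fin.rev l)) := fun i l => rfl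
  let s0 : Fin m → Tup 6 n := fun i => HIGHE.join (β i) (γ i) fun l l' => hβg i i _ _
  have hs0L : ∀ i (l : Fin 3), s0 i (Fin.castAdd 3 l) = β i l := fun i l =>
    Fin.append_left (β i) (γ i) l
  have hs0R : ∀ i (l : Fin 3), s0 i (Fin.natAdd 3 l) = γ i l := fun i l =>
    Fin.append_right (β i) (γ i) l
  have hJ : HIGHE.JI s0 := by
    rintro ⟨i, j⟩ ⟨i', j'⟩ h
    simp only at h
    induction j using Fin.addCases (m := 3) (n := 3) with
    | left l =>
      induction j' using Fin.addCases (m := 3) (n := 3) with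
      | left l' =>
        rw [hs0L, hs0L] at h
        have h1 := e.injective (b.injective h)
        rw [Prod.mk.injEq] at h1
        rw [h1.1, h1.2]
      | right l' =>
        rw [hs0L, hs0R, hγ] at h
        exact absurd h (hβg _ _ _ _)
    | right l =>
      induction j' using Fin.addCases (m := 3) (n := 3) with
      | left l' =>
        rw [hs0L, hs0R, hγ] at h
        exact absurd h.symm (hβg _ _ _ _)
      | right l' =>
        rw [hs0R, hs0R, hγ, hγ] at h
        have h1 := e.injective (b.injective ((g : Equiv.Perm (Fin n)).injective h))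
        rw [Prod.mk.injEq] at h1
        have h2 := Fin.rev_injective h1.2
        rw [h1.1, h2]
  have hc33 : ∀ i, c33 (s0 i) = c3 (β i) * (g * (c3 (β i))⁻¹ * g⁻¹) := by
    intro i
    have h1 : c33 (s0 i) = c3 (β i) * c3 (γ i) := HIGHE.c33_join _ _ _
    have h2 : c3 (γ i) = g * (c3 (β i))⁻¹ * g⁻¹ := by
      change c3 (HIGHE.rev3 (mv (g : Equiv.Perm (Fin n)) (β i))) = _
      rw [HIGHE.c3_rev, HIGHE.c3_conj]
      group
    rw [h1, h2]
  -- the trace
  have hcc : ∀ i j, i ≠ j → c3 (β i) * c3 (β j) = c3 (β j) * c3 (β i) := by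
    intro i j hij
    refine HIGHE.comm_of_disj _ _ fun x => ?_
    by_cases hx : ∀ l, β i l ≠ x
    · exact Or.inl (HIGHE.c3_off _ x hx)
    · right
      push Not at hx
      obtain ⟨l, hl⟩ := hx
      exact HIGHE.c3_off _ x fun l' hl' => hβd i j l l' hij (hl.trans hl'.symm)
  have hcg : ∀ i j, c3 (β i) * (g * (c3 (β j))⁻¹ * g⁻¹) =
      (g * (c3 (β j))⁻¹ * g⁻¹) * c3 (β i) := by
    intro i j
    have h2 : c3 (γ j) = g * (c3 (β j))⁻¹ * g⁻¹ := by
      change c3 (HIGHE.rev3 (mv (g : Equiv.Perm (Fin n)) (β j))) = _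
      rw [HIGHE.c3_rev, HIGHE.c3_conj]
      group
    rw [← h2]
    refine HIGHE.comm_of_disj _ _ fun x => ?_
    by_cases hx : ∀ l, β i l ≠ x
    · exact Or.inl (HIGHE.c3_off _ x hx)
    · right
      push Not at hx
      obtain ⟨l, hl⟩ := hx
      refine HIGHE.c3_off _ x fun l' hl' => ?_
      rw [hγ] at hl'
      exact hβg i j l _ (hl.trans hl'.symm)
  have htr := HIGHE.tr_prod ρ g m (fun i => c3 (β i)) hcg hcc
  have htr' : chr ρ g = LinearMap.trace ℂ V
      ((List.ofFn fun i => P3 ρ (c33 (s0 i))).prod * op ρ g) := by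
    unfold chr
    rw [← htr]
    simp only [hc33]
  set H0 : ℝ := hs ((List.ofFn fun i => P3 ρ (c33 (s0 i))).prod) with hH0
  have hH00 : 0 ≤ H0 := hs_nonneg _
  have h1 : ‖chr ρ g‖ ^ 2 ≤ H0 * Module.finrank ℂ V := by
    rw [htr']
    refine (trace_mul_le _ _).trans (le_of_eq ?_)
    have h2 := (hs_op_mul ρ g (1 : Module.End ℂ V)).1
    rw [mul_one, hs_one] at h2
    rw [h2]
  -- counting
  have h2 : ((univ.filter (HIGHE.JI (n := n) (m := m))).card : ℝ) * H0 ≤
      ∑ s : Fin m → Tup 6 n, hs ((List.ofFn fun i => P3 ρ (c33 (s i))).prod) := by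
    calc ((univ.filter (HIGHE.JI (n := n) (m := m))).card : ℝ) * H0
        = ∑ s ∈ univ.filter (HIGHE.JI (n := n) (m := m)),
            hs ((List.ofFn fun i => P3 ρ (c33 (s i))).prod) := by
          rw [← nsmul_eq_mul, ← sum_const]
          refine sum_congr rfl fun s hs' => ?_
          rw [mem_filter] at hs'
          exact (HIGHE.hs_JI ρ hm2 s0 s hJ hs'.2).symm
      _ ≤ _ := sum_le_sum_of_subset_of_nonneg (filter_subset _ _) fun s _ _ => hs_nonneg _
  have h3 := HIGHE.desc_bound m hm hn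
  have h4 : ((n.descFactorial (m * 6) : ℕ) : ℝ) ≤
      ((univ.filter (HIGHE.JI (n := n) (m := m))).card : ℝ) := by
    exact_mod_cast HIGHE.JI_card m
  set D : ℝ := ((n.descFactorial (m * 6) : ℕ) : ℝ) with hD
  have hD0 : 0 < D := by
    rw [hD]
    have : 0 < n.descFactorial (m * 6) := Nat.descFactorial_pos.2 (by omega)
    exact_mod_cast this
  have hc0 : 0 < (Fintype.card (Tup 6 n) : ℝ) := by
    rw [Fintype.card_embedding_eq, Fintype.card_fin, Fintype.card_fin]
    have : 0 < n.descFactorial 6 := Nat.descFactorial_pos.2 (by omega)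
    exact_mod_cast this
  have hc1 : (Fintype.card (Tup 6 n) : ℝ) ^ m ≤ 2 * D := by
    refine le_trans ?_ h3
    have h5 : (Fintype.card (Tup 6 n) : ℝ) ≤ (n : ℝ) ^ 6 := by
      rw [Fintype.card_embedding_eq, Fintype.card_fin, Fintype.card_fin]
      exact_mod_cast Nat.descFactorial_le_pow n 6
    calc (Fintype.card (Tup 6 n) : ℝ) ^ m ≤ ((n : ℝ) ^ 6) ^ m :=
          pow_le_pow_left₀ hc0.le h5 m
      _ = (n : ℝ) ^ (m * 6) := by rw [← pow_mul, mul_comm]
  have h5 : D * H0 ≤ A * (Fintype.card (Tup 6 n) : ℝ) ^ m :=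
    (mul_le_mul_of_nonneg_right h4 hH00).trans (h2.trans hA)
  have hA0 : 0 ≤ A := by
    have h6 : 0 ≤ A * (Fintype.card (Tup 6 n) : ℝ) ^ m :=
      (mul_nonneg hD0.le hH00).trans h5
    exact nonneg_of_mul_nonneg_left h6 (by positivity)
  have h6 : D * H0 ≤ D * (2 * A) := by
    refine h5.trans ?_
    calc A * (Fintype.card (Tup 6 n) : ℝ) ^ m ≤ A * (2 * D) :=
          mul_le_mul_of_nonneg_left hc1 hA0
      _ = D * (2 * A) := by ring
  have h7 : H0 ≤ 2 * A := le_of_mul_le_mul_left h6 hD0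
  exact h1.trans (mul_le_mul_of_nonneg_right h7 (Nat.cast_nonneg _))

end RC14
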