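import Pool.Agent.H14R2.RC.Defs

/-!
Task HIGHA: without vectors invariant under large stabilisers, 3-cycles move some vector.
-/

namespace RC14
open scoped InnerProductSpace
open Finset

namespace HIGHA

variable {V : Type*} [NormedAddCommGroup V] [InnerProductSpace ℂ V]

section Group

variable {n : ℕ}

theorem c3_val (s : Tup 3 n) : ((c3 s : Alt n) : Equiv.Perm (Fin n)) =
    Equiv.swap (s 0) (s 1) * Equiv.swap (s 1) (s 2) := rfl

theorem tup_ne (s : Tup 3 n) : s 0 ≠ s 1 ∧ s 1 ≠ s 2 ∧ s 0 ≠ s 2 :=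
  ⟨fun h => by simpa using s.injective h, fun h => by simpa using s.injective h,
    fun h => by simpa using s.injective h⟩

theorem c3_three (s : Tup 3 n) : (c3 s : Alt n) ^ 3 = 1 := by
  obtain ⟨h1, h2, h3⟩ := tup_ne s
  apply Subtype.ext
  ext x
  simp only [pow_succ, pow_zero, one_mul, Subgroup.coe_mul, c3_val, Subgroup.coe_one,
    Equiv.Perm.coe_mul, Function.comp_apply, Equiv.Perm.coe_one, id_eq]
  congr 1
  generalize s 0 = a at *
  generalize s 1 = b at *
  generalize s 2 = c at *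
  by_cases hxa : x = a
  · subst hxa; grind
  by_cases hxb : x = b
  · subst hxb; grind
  by_cases hxc : x = c
  · subst hxc; grind
  grind

theorem c3_off (s : Tup 3 n) (x : Fin n) (hx : ∀ i, s i ≠ x) :
    ((c3 s : Alt n) : Equiv.Perm (Fin n)) x = x := by
  rw [c3_val]
  simp only [Equiv.Perm.coe_mul, Function.comp_apply]
  rw [Equiv.swap_apply_of_ne_of_ne (hx 1).symm (hx 2).symm,
    Equiv.swap_apply_of_ne_of_ne (hx 0).symm (hx 1).symm]

theorem c3_comm (s t : Tup 3 n) (h : ∀ i j, s i ≠ t j) : c3 s * c3 t = c3 t * c3 s := by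
  apply Subtype.ext
  change ((c3 s : Alt n) : Equiv.Perm (Fin n)) * ((c3 t : Alt n) : Equiv.Perm (Fin n)) =
    ((c3 t : Alt n) : Equiv.Perm (Fin n)) * ((c3 s : Alt n) : Equiv.Perm (Fin n))
  refine Equiv.Perm.Disjoint.commute fun x => ?_
  by_cases hx : ∀ i, s i ≠ x
  · exact Or.inl (c3_off s x hx)
  · right
    push Not at hx
    obtain ⟨i, hi⟩ := hx
    exact c3_off t x fun j hj => h i j (hi.trans hj.symm)

/-- the 3-cycle with three given distinct points -/
def mk3 (x : Fin 3 → Fin n) (h : Function.Injective x) : Tup 3 n := ⟨x, h⟩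

theorem inj3 {a b c : Fin n} (hab : a ≠ b) (hbc : b ≠ c) (hac : a ≠ c) :
    Function.Injective ![a, b, c] := by
  intro i j hij
  fin_cases i <;> fin_cases j <;> simp_all

theorem c3_factor (s : Tup 3 n) (y z : Fin n) (hyz : y ≠ z) (hy : ∀ i, s i ≠ y)
    (hz : ∀ i, s i ≠ z) :
    c3 s = c3 (mk3 ![s 0, y, z] (inj3 (hy 0) hyz (hz 0))) *
      (c3 (mk3 ![s 2, y, z] (inj3 (hy 2) hyz (hz 2))))⁻¹ *
      c3 (mk3 ![s 1, y, z] (inj3 (hy 1) hyz (hz 1))) *
      (c3 (mk3 ![s 0, y, z] (inj3 (hy 0) hyz (hz 0))))⁻¹ := by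
  obtain ⟨h1, h2, h3⟩ := tup_ne s
  have hy0 := hy 0
  have hy1 := hy 1
  have hy2 := hy 2
  have hz0 := hz 0
  have hz1 := hz 1
  have hz2 := hz 2
  apply Subtype.ext
  ext x
  simp only [Subgroup.coe_mul, InvMemClass.coe_inv, c3_val, mk3, Function.Embedding.coeFn_mk,
    Matrix.cons_val_zero, Matrix.cons_val_one, Matrix.cons_val, mul_inv_rev, Equiv.swap_inv,
    Equiv.Perm.coe_mul, Function.comp_apply]
  congr 1
  generalize s 0 = a at *
  generalize s 1 = b at *
  generalize s 2 = c at *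
  clear hy hz
  by_cases hxa : x = a
  · subst hxa; grind (splits := 30)
  by_cases hxb : x = b
  · subst hxb; grind (splits := 30)
  by_cases hxc : x = c
  · subst hxc; grind (splits := 30)
  by_cases hxy : x = y
  · subst hxy; grind (splits := 30)
  by_cases hxz : x = z
  · subst hxz; grind (splits := 30)
  grind (splits := 30)

/-- a vector fixed by all 3-cycles off `K` is fixed by the stabiliser of `K` in `A_n` -/
theorem fixed_of_c3 (ρ : Alt n →* (V ≃ₗᵢ[ℂ] V)) (K : Finset (Fin n)) (v : V)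
    (h : ∀ s : Tup 3 n, (∀ i, s i ∉ K) → ρ (c3 s) v = v) (g : Alt n)
    (hg : ∀ a ∈ K, (g : Equiv.Perm (Fin n)) a = a) : ρ g v = v := by
  classical
  let H : Subgroup (Alt n) :=
    { carrier := {g | ρ g v = v}
      mul_mem' := by
        intro a b ha hb
        change ρ (a * b) v = v
        rw [map_mul]
        change ρ a (ρ b v) = v
        rw [show ρ b v = v from hb, show ρ a v = v from ha]
      one_mem' := by
        change ρ 1 v = v
        rw [map_one]; rfl
      inv_mem' := by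
        intro a ha
        change ρ a⁻¹ v = v
        rw [map_inv]
        change (ρ a).symm v = v
        rw [LinearIsometryEquiv.symm_apply_eq]
        exact (show ρ a v = v from ha).symm }
  let α := {x : Fin n // x ∉ K}
  let φ : Equiv.Perm α →* Equiv.Perm (Fin n) := Equiv.Perm.ofSubtype
  let H' : Subgroup (Equiv.Perm α) := (H.map (alternatingGroup (Fin n)).subtype).comap φ
  have hle : alternatingGroup α ≤ H' := by
    rw [← Equiv.Perm.closure_three_cycles_eq_alternating, Subgroup.closure_le]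
    intro σ hσ
    have hσ' : σ.IsThreeCycle := hσ
    obtain ⟨a, ha⟩ := hσ'.isCycle.nonempty_support
    have hnd := hσ'.nodup_iff_mem_support.mpr ha
    have hsw := hσ'.eq_swap_mul_swap_iff_mem_support.mpr ha
    have h1 : a ≠ σ a := by grind
    have h2 : σ a ≠ σ (σ a) := by grind
    have h3 : a ≠ σ (σ a) := by grind
    have hinj : Function.Injective ![(a : Fin n), (σ a : Fin n), (σ (σ a) : Fin n)] :=
      inj3 (fun h => h1 (Subtype.ext h)) (fun h => h2 (Subtype.ext h))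
        (fun h => h3 (Subtype.ext h))
    change φ σ ∈ H.map (alternatingGroup (Fin n)).subtype
    refine ⟨c3 (mk3 _ hinj), ?_, ?_⟩
    · change ρ (c3 (mk3 _ hinj)) v = v
      refine h _ fun i => ?_
      fin_cases i
      · exact a.2
      · exact (σ a).2
      · exact (σ (σ a)).2
    · change ((c3 (mk3 _ hinj) : Alt n) : Equiv.Perm (Fin n)) = φ σ
      have h4 : φ σ = φ (Equiv.swap a (σ a) * Equiv.swap (σ a) (σ (σ a))) := by
        rw [← hsw]
      have e1 : φ (Equiv.swap a (σ a)) = Equiv.swap (a : Fin n) (σ a : Fin n) :=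
        Equiv.Perm.ofSubtype_swap_eq a (σ a)
      have e2 : φ (Equiv.swap (σ a) (σ (σ a))) =
          Equiv.swap (σ a : Fin n) (σ (σ a) : Fin n) :=
        Equiv.Perm.ofSubtype_swap_eq (σ a) (σ (σ a))
      rw [h4, map_mul, c3_val, e1, e2]
      simp only [mk3, Function.Embedding.coeFn_mk,
        Matrix.cons_val_zero, Matrix.cons_val_one, Matrix.cons_val]
  have hmem : ∀ x, (g : Equiv.Perm (Fin n)) x ∉ K ↔ x ∉ K := by
    intro x
    constructor
    · intro h1 h2
      rw [hg x h2] at h1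
      exact h1 h2
    · intro h1 h2
      have h3 := hg _ h2
      have h4 := (g : Equiv.Perm (Fin n)).injective h3
      rw [h4] at h2
      exact h1 h2
  let τ : Equiv.Perm α := Equiv.Perm.subtypePerm (p := fun x => x ∉ K)
    (g : Equiv.Perm (Fin n)) hmem
  have hφ : φ τ = (g : Equiv.Perm (Fin n)) :=
    Equiv.Perm.ofSubtype_subtypePerm (p := fun x => x ∉ K) hmem
      fun x hx hxK => hx (hg x hxK)
  have hsg : τ ∈ alternatingGroup α := by
    rw [Equiv.Perm.mem_alternatingGroup]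
    have h1 : Equiv.Perm.sign τ = Equiv.Perm.sign (g : Equiv.Perm (Fin n)) :=
      Equiv.Perm.sign_subtypePerm (p := fun x => x ∉ K) (g : Equiv.Perm (Fin n)) hmem
        fun x hx hxK => hx (hg x hxK)
    rw [h1]
    exact Equiv.Perm.mem_alternatingGroup.1 g.2
  have h1 := hle hsg
  change φ τ ∈ H.map (alternatingGroup (Fin n)).subtype at h1
  rw [hφ] at h1
  obtain ⟨g', hg', hgg'⟩ := h1
  have h2 : g' = g := Subtype.ext hgg'
  rw [← h2]
  exact hg'

/-! ### unitary operators -/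

theorem disp_mul {G : Type*} [Group G] (ρ : G →* (V ≃ₗᵢ[ℂ] V)) (g h : G) (v : V) :
    ‖ρ (g * h) v - v‖ ≤ ‖ρ g v - v‖ + ‖ρ h v - v‖ := by
  have h1 : ρ (g * h) v - v = ρ g (ρ h v - v) + (ρ g v - v) := by
    rw [map_mul, map_sub]
    change ρ g (ρ h v) - v = _
    abel
  rw [h1]
  refine (norm_add_le _ _).trans ?_
  rw [LinearIsometryEquiv.norm_map]
  linarith

theorem disp_inv {G : Type*} [Group G] (ρ : G →* (V ≃ₗᵢ[ℂ] V)) (g : G) (v : V) :
    ‖ρ g⁻¹ v - v‖ = ‖ρ g v - v‖ := by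
  have h1 : ρ g (ρ g⁻¹ v - v) = v - ρ g v := by
    rw [map_sub, map_inv]
    congr 1
    exact (ρ g).apply_symm_apply v
  rw [← LinearIsometryEquiv.norm_map (ρ g), h1, norm_sub_rev]

theorem disp_three (U : V ≃ₗᵢ[ℂ] V) (v : V) (h : v + U v + U (U v) = 0) :
    ‖U v - v‖ ^ 2 = 3 * ‖v‖ ^ 2 := by
  have h1 := parallelogram_law_with_norm ℂ (U v) v
  have h2 : U v + v = - U (U v) := by
    rw [eq_neg_iff_add_eq_zero, ← h]
    abel
  rw [h2, norm_neg, LinearIsometryEquiv.norm_map, LinearIsometryEquiv.norm_map] at h1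
  nlinarith

/-- the key inequality for a 3-cycle -/
theorem key_c3 (ρ : Alt n →* (V ≃ₗᵢ[ℂ] V)) (s : Tup 3 n) (v : V)
    (hv : v + ρ (c3 s) v + ρ (c3 s) (ρ (c3 s) v) = 0) (y z : Fin n) (hyz : y ≠ z)
    (hy : ∀ i, s i ≠ y) (hz : ∀ i, s i ≠ z) :
    ‖v‖ ^ 2 / 2 ≤ ∑ l : Fin 3, ‖ρ (c3 (mk3 ![s l, y, z] (inj3 (hy l) hyz (hz l)))) v - v‖ ^ 2 := by
  have h1 := disp_three (ρ (c3 s)) v hv
  have hfac := c3_factor s y z hyz hy hz
  set g0 := c3 (mk3 ![s 0, y, z] (inj3 (hy 0) hyz (hz 0))) with hg0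
  set g1 := c3 (mk3 ![s 1, y, z] (inj3 (hy 1) hyz (hz 1))) with hg1
  set g2 := c3 (mk3 ![s 2, y, z] (inj3 (hy 2) hyz (hz 2))) with hg2
  have h2 : ‖ρ (c3 s) v - v‖ ≤ ‖ρ g0 v - v‖ + ‖ρ g2 v - v‖ + ‖ρ g1 v - v‖ + ‖ρ g0 v - v‖ := by
    rw [hfac]
    have e1 := disp_mul ρ (g0 * g2⁻¹ * g1) g0⁻¹ v
    have e2 := disp_mul ρ (g0 * g2⁻¹) g1 v
    have e3 := disp_mul ρ g0 g2⁻¹ v
    rw [disp_inv] at e1 e3
    linarith
  rw [Fin.sum_univ_three]
  have h3 : ‖ρ (c3 s) v - v‖ ^ 2 ≤
      (‖ρ g0 v - v‖ + ‖ρ g2 v - v‖ + ‖ρ g1 v - v‖ + ‖ρ g0 v - v‖) ^ 2 :=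
    pow_le_pow_left₀ (norm_nonneg _) h2 2
  rw [h1] at h3
  set x0 := ‖ρ g0 v - v‖
  set x1 := ‖ρ g1 v - v‖
  set x2 := ‖ρ g2 v - v‖
  nlinarith [sq_nonneg (x0 - 2 * x1), sq_nonneg (x0 - 2 * x2), sq_nonneg (x1 - x2)]

/-- summation over the 3-cycles with two prescribed moving points -/
theorem sum_lower (ρ : Alt n →* (V ≃ₗᵢ[ℂ] V)) (v : V) (T : Finset (Tup 3 n))
    (hT : ∀ s ∈ T, ∀ t ∈ T, s ≠ t → ∀ i j, s i ≠ t j)
    (hTv : ∀ s ∈ T, v + ρ (c3 s) v + ρ (c3 s) (ρ (c3 s) v) = 0) (hn : 4 ≤ n) :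
    (T.card : ℝ) * (((n : ℝ) - 3) * (n - 4)) * (‖v‖ ^ 2 / 2) ≤
      ∑ s : Tup 3 n, ‖ρ (c3 s) v - v‖ ^ 2 := by
  classical
  let E : (Fin 3 → Fin n) → ℝ := fun x =>
    if h : Function.Injective x then ‖ρ (c3 (mk3 x h)) v - v‖ ^ 2 else 0
  have hE0 : ∀ x, 0 ≤ E x := by
    intro x
    simp only [E]
    split_ifs
    · positivity
    · exact le_rfl
  have hEs : ∀ s : Tup 3 n, ‖ρ (c3 s) v - v‖ ^ 2 = E s := by
    intro s
    simp only [E]
    rw [dif_pos s.injective]
    rfl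
  let Y : Tup 3 n → Finset (Fin n × Fin n) := fun s => (univ \ univ.image s).offDiag
  have hY : ∀ s, ((Y s).card : ℝ) = ((n : ℝ) - 3) * (n - 4) := by
    intro s
    have h1 : (univ \ univ.image s : Finset (Fin n)).card = n - 3 := by
      rw [card_sdiff_of_subset (subset_univ _), card_image_of_injective _ s.injective]
      simp
    simp only [Y]
    rw [offDiag_card, h1]
    have h2 : 3 ≤ n := by omega
    have h3 : n - 3 ≤ (n - 3) * (n - 3) := Nat.le_mul_self _
    rw [Nat.cast_sub h3, Nat.cast_mul, Nat.cast_sub h2]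
    push_cast
    ring
  have hYmem : ∀ s : Tup 3 n, ∀ p ∈ Y s, (∀ i, s i ≠ p.1) ∧ (∀ i, s i ≠ p.2) ∧ p.1 ≠ p.2 := by
    intro s p hp
    simp only [Y, mem_offDiag, mem_sdiff, mem_univ, true_and, mem_image, not_exists] at hp
    exact ⟨fun i => hp.1 i, fun i => hp.2.1 i, hp.2.2⟩
  let X : Finset (Σ _ : Tup 3 n, (Fin n × Fin n) × Fin 3) :=
    T.sigma fun s => Y s ×ˢ (univ : Finset (Fin 3))
  let φ : (Σ _ : Tup 3 n, (Fin n × Fin n) × Fin 3) → (Fin 3 → Fin n) :=
    fun q => ![q.1 q.2.2, q.2.1.1, q.2.1.2]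
  have hφ : Set.InjOn φ X := by
    rintro ⟨s, p, l⟩ hq ⟨s', p', l'⟩ hq' heq
    simp only [X, coe_sigma, Set.mem_sigma_iff, mem_coe, mem_product, mem_univ,
      and_true] at hq hq'
    have e0 := congrFun heq 0
    have e1 := congrFun heq 1
    have e2 := congrFun heq 2
    simp only [φ, Matrix.cons_val_zero, Matrix.cons_val_one, Matrix.cons_val] at e0 e1 e2
    have hs : s = s' := by
      by_contra hne
      exact hT s hq.1 s' hq'.1 hne l l' e0
    subst hs
    have hl : l = l' := s.injective e0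
    subst hl
    have hp : p = p' := Prod.ext e1 e2
    subst hp
    rfl
  calc (T.card : ℝ) * (((n : ℝ) - 3) * (n - 4)) * (‖v‖ ^ 2 / 2)
      = ∑ s ∈ T, ∑ _p ∈ Y s, ‖v‖ ^ 2 / 2 := by
        simp only [sum_const, nsmul_eq_mul, hY]
        ring
    _ ≤ ∑ s ∈ T, ∑ p ∈ Y s, ∑ l : Fin 3, E ![s l, p.1, p.2] := by
        refine sum_le_sum fun s hs => sum_le_sum fun p hp => ?_
        obtain ⟨h1, h2, h3⟩ := hYmem s p hp
        refine (key_c3 ρ s v (hTv s hs) p.1 p.2 h3 h1 h2).trans (le_of_eq ?_)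
        refine sum_congr rfl fun l _ => ?_
        simp only [E]
        rw [dif_pos (inj3 (h1 l) h3 (h2 l))]
    _ = ∑ q ∈ X, E (φ q) := by
        simp only [X]
        rw [sum_sigma]
        refine sum_congr rfl fun s _ => ?_
        rw [sum_product]
    _ = ∑ x ∈ X.image φ, E x := (sum_image hφ).symm
    _ ≤ ∑ x ∈ univ.image (fun s : Tup 3 n => (s : Fin 3 → Fin n)), E x := by
        refine sum_le_sum_of_subset_of_nonneg ?_ fun x _ _ => hE0 x
        intro x hx
        rw [mem_image] at hx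
        obtain ⟨⟨s, p, l⟩, hq, rfl⟩ := hx
        simp only [X, mem_sigma, mem_product, mem_univ, and_true] at hq
        obtain ⟨h1, h2, h3⟩ := hYmem s p hq.2
        rw [mem_image]
        exact ⟨mk3 _ (inj3 (h1 l) h3 (h2 l)), mem_univ _, rfl⟩
    _ = ∑ s : Tup 3 n, E s := sum_image fun s _ t _ h => DFunLike.coe_injective h
    _ = ∑ s : Tup 3 n, ‖ρ (c3 s) v - v‖ ^ 2 := by
        refine sum_congr rfl fun s _ => (hEs s).symm

end Group

end HIGHA

variable {V : Type*} [NormedAddCommGroup V] [InnerProductSpace ℂ V] [FiniteDimensional ℂ V]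

/-- HIGH a+b: without vectors invariant under large stabilisers, 3-cycles move some vector -/
theorem HIGHA (n : ℕ) (hn : 1000 ≤ n) (ρ : Alt n →* (V ≃ₗᵢ[ℂ] V)) (hV : ∃ v : V, v ≠ 0)
    (hno : ∀ K : Finset (Fin n), 100 * K.card ≤ n → ∀ v : V,
      (∀ h : Alt n, (∀ a ∈ K, (h : Equiv.Perm (Fin n)) a = a) → ρ h v = v) → v = 0) :
    ∃ v : V, v ≠ 0 ∧ 1 / 700 * ‖v‖ ^ 2 * Fintype.card (Tup 3 n) ≤
      ∑ s : Tup 3 n, ‖ρ (c3 s) v - v‖ ^ 2 := by
  classical
  let Good : Finset (Tup 3 n) → Prop := fun T =>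
    (∀ s ∈ T, ∀ t ∈ T, s ≠ t → ∀ i j, s i ≠ t j) ∧
      ∃ v : V, v ≠ 0 ∧ ∀ s ∈ T, v + ρ (c3 s) v + ρ (c3 s) (ρ (c3 s) v) = 0
  obtain ⟨T, hT, hmax⟩ := Finset.exists_max_image (univ.filter Good) card
    ⟨∅, by
      rw [mem_filter]
      obtain ⟨v, hv⟩ := hV
      exact ⟨mem_univ _, by simp, v, hv, by simp⟩⟩
  rw [mem_filter] at hT
  obtain ⟨-, hTd, v, hv, hTv⟩ := hT
  refine ⟨v, hv, ?_⟩
  have hcard : n < 300 * T.card := by
    by_contra hlt
    push Not at hlt
    refine hv (hno (T.biUnion fun s => univ.image s) ?_ v ?_)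
    · have h1 : (T.biUnion fun s => univ.image s).card ≤ T.card * 3 := by
        refine card_biUnion_le_card_mul _ _ _ fun s _ => ?_
        refine card_image_le.trans ?_
        simp
      omega
    · refine HIGHA.fixed_of_c3 ρ _ v fun s hs => ?_
      have hsT : ∀ t ∈ T, ∀ i j, s i ≠ t j := by
        intro t ht i j hij
        refine hs i ?_
        rw [mem_biUnion]
        exact ⟨t, ht, mem_image.2 ⟨j, mem_univ _, hij.symm⟩⟩
      by_contra hne
      have hw : ρ (c3 s) v - v ≠ 0 := sub_ne_zero.2 hne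
      have hsn : s ∉ T := fun hsT' => hsT s hsT' 0 0 rfl
      have hgood : Good (insert s T) := by
        refine ⟨?_, ρ (c3 s) v - v, hw, ?_⟩
        · intro a ha b hb hab i j
          rw [mem_insert] at ha hb
          rcases ha with rfl | ha <;> rcases hb with rfl | hb
          · exact absurd rfl hab
          · exact hsT b hb i j
          · exact (hsT a ha j i).symm
          · exact hTd a ha b hb hab i j
        · intro t ht
          rw [mem_insert] at ht
          rcases ht with rfl | ht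
          · have h3 : ρ (c3 t) (ρ (c3 t) (ρ (c3 t) v)) = v := by
              have e1 : ρ ((c3 t) ^ 3) v = v := by
                rw [HIGHA.c3_three, map_one]; rfl
              rw [pow_succ, pow_succ, pow_one, map_mul, map_mul] at e1
              exact e1
            simp only [map_sub]
            rw [h3]
            abel
          · have hc : c3 t * c3 s = c3 s * c3 t :=
              HIGHA.c3_comm t s fun i j => (hsT t ht j i).symm
            have e1 : ∀ u : V, ρ (c3 t) (ρ (c3 s) u) = ρ (c3 s) (ρ (c3 t) u) := by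
              intro u
              have := congrArg (fun g => ρ g u) hc
              simp only [map_mul] at this
              exact this
            have e2 := hTv t ht
            have e3 := congrArg (ρ (c3 s)) e2
            rw [map_add, map_add, map_zero] at e3
            simp only [map_sub, e1]
            rw [sub_add_sub_comm, sub_add_sub_comm, e2, e3, sub_zero]
      have h1 := hmax (insert s T) (mem_filter.2 ⟨mem_univ _, hgood⟩)
      rw [card_insert_of_notMem hsn] at h1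
      omega
  refine le_trans ?_ (HIGHA.sum_lower ρ v T hTd hTv (by omega))
  have h1 : (Fintype.card (Tup 3 n) : ℝ) = n * (n - 1) * (n - 2) := by
    rw [Fintype.card_embedding_eq, Fintype.card_fin, Fintype.card_fin]
    simp only [Nat.descFactorial_succ, Nat.descFactorial_zero, mul_one, Nat.sub_zero]
    rw [Nat.cast_mul, Nat.cast_mul, Nat.cast_sub (by omega), Nat.cast_sub (by omega)]
    push_cast
    ring
  rw [h1]
  have h2 : (n : ℝ) < 300 * T.card := by exact_mod_cast hcard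
  have h3 : (1000 : ℝ) ≤ n := by exact_mod_cast hn
  have h4 : (1 : ℝ) / 700 * (n * (n - 1) * (n - 2)) ≤
      (T.card : ℝ) * (((n : ℝ) - 3) * (n - 4)) / 2 := by
    have h5 : (n : ℝ) / 300 * ((n - 3) * (n - 4)) ≤ T.card * (((n : ℝ) - 3) * (n - 4)) := by
      refine mul_le_mul_of_nonneg_right (by linarith) ?_
      exact mul_nonneg (by linarith) (by linarith)
    have h6 : (1 : ℝ) / 700 * (n * (n - 1) * (n - 2)) ≤
        (n : ℝ) / 300 * ((n - 3) * (n - 4)) / 2 := by
      have h7 : 0 ≤ (n : ℝ) * ((n : ℝ) ^ 2 - 31 * n + 72) := by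
        refine mul_nonneg (by linarith) ?_
        nlinarith
      nlinarith
    linarith
  have h5 : 0 ≤ ‖v‖ ^ 2 := by positivity
  calc 1 / 700 * ‖v‖ ^ 2 * (n * ((n : ℝ) - 1) * (n - 2))
      = ‖v‖ ^ 2 * (1 / 700 * (n * ((n : ℝ) - 1) * (n - 2))) := by ring
    _ ≤ ‖v‖ ^ 2 * ((T.card : ℝ) * (((n : ℝ) - 3) * (n - 4)) / 2) :=
        mul_le_mul_of_nonneg_left h4 h5
    _ = _ := by ring

end RC14
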